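import Pool.Agent.Y226.ZU.Main

/-!
# MP_d83ecd_ag: uniform Zilber-Pink for affine images of curves in `Y(1)^n`, over all number fields

`Y(1)^n` is identified with `ℂ^n` by the elliptic modular function `jj = j = E₄³ / Δ`. A special
subvariety of `Y(1)^n` of dimension `r` is given by a `SpecialVariety`: its points are the points
`x` with `x_i = const_i` for the constant coordinates, and `x_i = j (g_i z_l)` for the coordinates of
class `l`, `z_1, …, z_r` free in the upper half plane and `g_i` a fixed integral matrix of positive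
determinant. In the definition of special subvarieties the constants are values of `j` at CM points.
We allow also all constants which are integral over the ring generated by a given finite set `Γ`
of algebraic numbers (for example all numbers `j (g τ)` for which `j (τ) ∈ Γ`, `g` an integral
matrix).

Let `V ⊆ ℂ^n` be an irreducible curve over the algebraic numbers (of any genus and any degree),
given by its prime ideal `I`, with nonconstant coordinates, in general position in the following
sense: for `i ≠ j`, the coordinates `x_i` and `x_j` satisfy on `V` an equation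
`∑_{u ≤ a, v ≤ b} g_{uv} x_i ^ u x_j ^ v = 0` with `g_{00}, g_{a0}, g_{0b}, g_{ab} ≠ 0`. This says
that the zeros and poles of `x_i` (on the smooth projective model of `V`) are different from those
of `x_j`. (For `n ≥ 2`, these equations imply that `V` is a curve.)

Theorem: for each `W` there is a number `D`, which depends only on `V`, `W` and `Γ`, such that for
each prime number `p > D` and each `B` there is a number `G` with the following property. Let `K` be
a number field, `v` a prime of `K` above `p` which is unramified over `p` and has at most `B`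
residue classes, and let `lam_i` and `mu_i` be elements of `K` with `v (lam_i) = - w_i e`,
`1 ≤ w_i ≤ W`, `e > 0`, and `v (mu_i) > v (lam_i)`. Let `V'` be the image of `V` under
`(y_1, …, y_n) ↦ (lam_1 y_1 + mu_1, …, lam_n y_n + mu_n)`. Then

* `V'` has at most `G` points which are on special subvarieties of codimension at least two,
* all these points are on the special subvarieties defined by an isogeny of degree at most `G`
  between two of the coordinates. So one finite union of proper special subvarieties of `Y(1)^n`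
  contains the atypical intersections of all the curves `V'`, for all number fields `K`, all `v` and
  all `lam`, `mu`,
* `V'` is not contained in a proper special subvariety.

For example, this holds for the curves `V' = (1/m) V + c` for all elements `m` of the ring of
integers of `K` which are divisible by `v` and all `c` in this ring. For a given number field `K`
all prime ideals except a finite number can be taken for `v`.
-/

namespace Pool.Agent.Results.MP_d83ecd_ag.AffineImagesOfCurves

open H294ZP MvPolynomial UpperHalfPlane IsDedekindDomain NumberField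

/-- A special subvariety of dimension `r` of `Y(1)^n`. The constant coordinates are those with
`cls i = none`. The allowed constants are the singular moduli and the numbers which are integral
over the ring generated by `Γ`. -/
structure SpecialVariety (Γ : Set ℂ) (n r : ℕ) where
  cls : Fin n → Option (Fin r)
  surj : ∀ l : Fin r, ∃ i, cls i = some l
  mat : Fin n → Matrix (Fin 2) (Fin 2) ℤ
  det_pos : ∀ i, 0 < (mat i).det
  const : Fin n → ℂ
  allowed : ∀ i, (∃ τ : ℍ, IsCM τ ∧ const i = jj τ) ∨ IsIntegral (Algebra.adjoin ℤ Γ) (const i)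

/-- The points of a special subvariety of `Y(1)^n`. -/
def SpecialVariety.locus {Γ : Set ℂ} {n r : ℕ} (Z : SpecialVariety Γ n r) : Set (Fin n → ℂ) :=
  {x | ∃ z : Fin r → ℍ, ∀ i, (Z.cls i = none → x i = Z.const i) ∧
    ∀ l, Z.cls i = some l → ∃ w : ℍ,
      (w : ℂ) * (Z.mat i 1 0 * z l + Z.mat i 1 1) = Z.mat i 0 0 * z l + Z.mat i 0 1 ∧
      x i = jj w}

/-- The zero set `V ⊆ ℂ^n` of the ideal `I`. -/
def curve {n : ℕ} (I : Ideal (MvPolynomial (Fin n) (algebraicClosure ℚ ℂ))) : Set (Fin n → ℂ) :=
  {y | ∀ f ∈ I, aeval y f = 0}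

/-- The image of `V` under `(y_1, …, y_n) ↦ (a_1 y_1 + b_1, …, a_n y_n + b_n)`. -/
def image {n : ℕ} (I : Ideal (MvPolynomial (Fin n) (algebraicClosure ℚ ℂ)))
    (a b : Fin n → ℂ) : Set (Fin n → ℂ) :=
  {x | ∃ y ∈ curve I, ∀ i, x i = a i * y i + b i}

/-- The points of `S` on special subvarieties of codimension at least two. -/
def atypical (Γ : Set ℂ) {n : ℕ} (S : Set (Fin n → ℂ)) : Set (Fin n → ℂ) :=
  {x | x ∈ S ∧ ∃ (r : ℕ) (Z : SpecialVariety Γ n r), r + 2 ≤ n ∧ x ∈ Z.locus}

/-- `x` and `x'` are the `j`-invariants of elliptic curves which are connected by an isogeny of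
degree `N`. -/
def Isogenous (N : ℕ) (x x' : ℂ) : Prop :=
  ∃ (τ τ' : ℍ) (g : Matrix (Fin 2) (Fin 2) ℤ), g.det = N ∧
    (τ' : ℂ) * (g 1 0 * τ + g 1 1) = g 0 0 * τ + g 0 1 ∧ x = jj τ ∧ x' = jj τ'

/-- Special subvarieties in the form used in the proof. -/
def SpecialVariety.toSV {Γ : Set ℂ} {n r : ℕ} (Z : SpecialVariety Γ n r) :
    Pool.Agent.Y226.ZM.SV Γ n r where
  cls := Z.cls
  mat := Z.mat
  det_pos := Z.det_pos
  const := Z.const
  int := fun i => by
    rcases Z.allowed i with ⟨τ, hτ, h⟩ | h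
    · rw [h]
      exact (singular_modulus_integral τ hτ).tower_top
    · exact h

theorem result {n : ℕ} (I : Ideal (MvPolynomial (Fin n) (algebraicClosure ℚ ℂ)))
    (hI : I.IsPrime) (hconst : ∀ (i : Fin n) (c : algebraicClosure ℚ ℂ), X i - C c ∉ I)
    (hgen : ∀ i j : Fin n, i ≠ j → ∃ (a b : ℕ) (g : ℕ → ℕ → algebraicClosure ℚ ℂ),
      g 0 0 ≠ 0 ∧ g a 0 ≠ 0 ∧ g 0 b ≠ 0 ∧ g a b ≠ 0 ∧
      ∑ u ∈ Finset.range (a + 1), ∑ v ∈ Finset.range (b + 1),
        C (g u v) * X i ^ u * X j ^ v ∈ I) (W : ℕ)
    (Γ : Finset ℂ) (hΓ : ∀ γ ∈ Γ, IsAlgebraic ℚ γ) :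
    ∃ D : ℕ, ∀ p : ℕ, p.Prime → D < p → ∀ B : ℕ, ∃ G : ℕ,
      ∀ (K : Type) [Field K] [NumberField K] (σ : K →+* ℂ) (v : HeightOneSpectrum (𝓞 K)),
      (p : 𝓞 K) ∈ v.asIdeal → (p : 𝓞 K) ∉ v.asIdeal ^ 2 → Nat.card (𝓞 K ⧸ v.asIdeal) ≤ B →
      ∀ (lam mu : Fin n → K) (e : ℕ) (w : Fin n → ℕ), 0 < e →
      (∀ i, 0 < w i ∧ w i ≤ W ∧ v.valuation K (lam i) = WithZero.exp ((w i * e : ℕ) : ℤ) ∧
        v.valuation K (mu i) < v.valuation K (lam i)) →
      (atypical Γ (image I (fun i => σ (lam i)) fun i => σ (mu i))).Finite ∧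
      (atypical Γ (image I (fun i => σ (lam i)) fun i => σ (mu i))).ncard ≤ G ∧
      (∀ x ∈ atypical Γ (image I (fun i => σ (lam i)) fun i => σ (mu i)),
        ∃ j l : Fin n, j ≠ l ∧ ∃ N : ℕ, 0 < N ∧ N ≤ G ∧ Isogenous N (x j) (x l)) ∧
      ∀ (r : ℕ) (Z : SpecialVariety Γ n r), r < n →
        ¬ image I (fun i => σ (lam i)) (fun i => σ (mu i)) ⊆ Z.locus := by
  obtain ⟨D, hD⟩ := Pool.Agent.Y226.ZU.main_u I hI hconst hgen W Γ hΓ
  refine ⟨D, fun p hp hDp B => ?_⟩
  obtain ⟨G, hG⟩ := hD p hp hDp B
  refine ⟨G, fun K _ _ σ v hpv hpv2 hB lam mu e w he hw => ?_⟩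
  obtain ⟨h1, h2, h3, h4⟩ := hG K σ v hpv hpv2 hB lam mu e w he hw
  have hsub : atypical Γ (image I (fun i => σ (lam i)) fun i => σ (mu i)) ⊆
      {x | x ∈ Pool.Agent.Y226.ZU.im I (fun i => σ (lam i)) (fun i => σ (mu i)) ∧
        ∃ (r : ℕ) (Z : Pool.Agent.Y226.ZM.SV (Γ : Set ℂ) n r), r + 2 ≤ n ∧ x ∈ Z.locus} := by
    rintro x ⟨hx, r, Z, hr, hZ⟩
    exact ⟨hx, r, Z.toSV, hr, hZ⟩
  refine ⟨h2.subset hsub, (Set.ncard_le_ncard hsub h2).trans h3, ?_, ?_⟩
  · rintro x ⟨hx, r, Z, hr, hZ⟩
    obtain ⟨j, l, hjl, N, hN0, hN, τ, τ', a, b, c, d, hdet, hτ, hxj, hxl⟩ :=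
      h1 x hx r Z.toSV hr hZ
    refine ⟨j, l, hjl, N, hN0, hN, τ, τ', !![a, b; c, d], ?_, ?_, hxj, hxl⟩
    · rw [Matrix.det_fin_two_of]
      exact hdet
    · simpa using hτ
  · intro r Z hr hsub'
    exact h4 r Z.toSV hr hsub'

end Pool.Agent.Results.MP_d83ecd_ag.AffineImagesOfCurves
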