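import Pool.Agent.Y152.RP.Main
import Pool.Agent.Y152.RP.Fam

/-!
# MP_d83ecd_ag: Zilber-Pink for all but finitely many members with parameters of bounded degree, with
radical parameters, and with roots of unity as parameters, of one-parameter families

The Shimura variety `Y(1)^n` is identified with `ℂ^n` by the elliptic modular function
`jj = j = E₄³ / Δ`.

A complex number `t` is *radical* if some power `t^N`, `N > 0`, is a rational number
(`IsRadical`). The radical numbers have arbitrarily large degrees; they are the elements of the
division group of `ℚ^×` (of infinite rank, with all the roots of unity as torsion) and `0`.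

**Families.** Let `K ⊂ ℂ` be a countable field. We consider algebraic families `X_t` of
subsets of `Y(1)^n` with one parameter `t`, given by
* a family `B_t ⊆ P^N` of projective algebraic sets, defined by forms `G k` with coefficients in
  `K[t]`,
* quotients `f_i = A_i / B_i` of forms of the same degree `d_i` with coefficients in `K[t]`,
* functions `s_i` integral over `K[j]`, `R_i (s_i, j) = 0` with `R_i` monic in the first variable
  (level one: `R_i = S - J`, `s_i = j`; in general modular functions of any level without poles
  in the upper half plane), and polynomials `c_i ∈ K[t]`: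
`X_t = {x | ∃ y ∈ B_t, ∃ s, ∀ i, R_i (s_i, x_i) = 0, c_i (t) s_i = A_i (y) / B_i (y)}`
(`scaledImage`), the image of a family of subvarieties of a product of modular curves of any levels.

The family degenerates at the rational values `t = α_1, …, α_M` of the parameter in the
following sense:
* no point of `B_{α_l}` lies on `m + 1` of the divisors of the `f_i` (at `t = α_l`), and
* the `c_i` have zeros at `α_l`, of orders `e_{l i} > 0`, and these orders are independent:
  `q e_{l i} e_{l j} e_{l' i} e_{l' j}` is not a square for `l ≠ l'`, `i ≠ j`, `1 ≤ q ≤ T^8`, where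
  `T` bounds the degrees of the `R_i` (`T = 1` for level one).

**Theorem.**
1. Let the `α_l` be distinct. If `M ≥ n (n - 1) / 2 + 1 + 2 d` then for all but finitely many
   algebraic numbers `t` of degree at most `d` over the rational numbers the set `X_t` has no atypical
   intersection with special subvarieties `Z` of `Y(1)^n`: every irreducible closed subset of
   `X_t ∩ Z` has dimension at most `dim Z + m - n`, and the same bound holds for the transcendence
   degrees of the points of `X_t ∩ Z` over `K`. If `m = 1` (families of curves) and only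
   `M ≥ 4 + 2 d`, for any `n`, then for all but finitely many such `t` the set `X_t` has no point at
   all on special subvarieties of codimension at least two.
2. Let the `α_l` be nonzero and the `|α_l|` distinct. For the radical numbers `t` (of any degree) the
   same is true if `M ≥ n (n - 1) / 2 + 3`, and for `m = 1` if `M ≥ 6`.
3. Let `|α_l| ≠ 0, 1` for all `l`. For the roots of unity `t` the same is true if
   `M ≥ n (n - 1) / 2 + 1`, and for `m = 1` if `M ≥ 4`.

The constant coordinates of `Z` can be special points or integral over the ring generated by any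
given finite subset `Γ` of `K`.

For `d = 1` the first part of 1. is the theorem of the starting file `RationalParameters`. In 2. and
3. the number of the degenerate members does not depend on the degree of `t`. For parameters
`t` which are transcendental over `K` (and `M ≥ n (n - 1) / 2 + 1`) there are no atypical
intersections either, by the starting file `LocalCriterion`. For example let `V ⊂ Y(1)^n` be any
subvariety of dimension `m` (over any countable field) such
that no `m + 1` of the coordinates are all in `{0, ∞}` at a point of the closure of `V`, and let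
`c_i = ∏_l (t - α_l)^(e_{l i})`; then all but finitely many of the scalings `c (t)^(-1) V`,
`t` radical, have no atypical subvariety.

**The arithmetic** (`Pool.Agent.Y152.RP.Main`). Let `a_1, a_2, a_3` be nonzero rational numbers with
distinct absolute values and `D` a number. For all but finitely many radical `t` the value of the
minimal polynomial of `t` at one of the `a_i` has a prime factor larger than `D`; for all but
finitely many roots of unity `t` this holds for every rational `a ≠ 0, ±1`. (So `t` is near to `a_i`
at a place above a large prime.) For three numbers this is a finiteness theorem for the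
`S`-integral points, relative to `a_1, a_2, a_3`, in the division group of `ℚ^×`. Its proof: let
`f > 0` be minimal such that `t^(2f)` is a rational multiple of a root of unity `ω` of order `n`; then
`[ℚ(t) : ℚ(t^f)] = f`, and the minimal polynomials of `t / a` and `(t / a)^f` have the same value at
`1`. For large `n` its size is compared with its smooth part: the conjugates of `t^f / a^f` on their
circle have small first and second power sums, which suffices for a lower bound. For bounded `n` the
numbers `a_i^F - t^F`, `F = f` or `2 f`, in a cyclotomic field, have quotients which are `S`-units,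
and the `S`-unit theorem is applied to a relation of six terms. For `t` of bounded degree the
`S`-unit theorem is applied to the values of the minimal polynomial at `2 d + 1` of the `α_l`.
-/

set_option autoImplicit false

namespace Pool.Agent.Results.MP_d83ecd_ag.AlgebraicParameters

open MvPolynomial
open Pool.Agent.Y152.RP.Fam (SpecialVariety NoAtypical InGeneralPosition scaledImage
  IndependentExponents)

/-- `t` is algebraic over the rational numbers, of degree at most `d`. -/
def DegreeAtMost (d : ℕ) (t : ℂ) : Prop :=
  ∃ F : Polynomial ℤ, F ≠ 0 ∧ F.natDegree ≤ d ∧ Polynomial.aeval t F = 0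

/-- Some power of `t` with positive exponent is a rational number. -/
def IsRadical (t : ℂ) : Prop := ∃ N : ℕ, 0 < N ∧ ∃ q : ℚ, t ^ N = (q : ℂ)

/-- `t` is a root of unity. -/
def IsRootOfUnity (t : ℂ) : Prop := ∃ N : ℕ, 0 < N ∧ t ^ N = 1

/-- One-parameter families which degenerate at sufficiently many rational parameters: all but
finitely many of the members with parameters of bounded degree (with radical parameters, with roots
of unity as parameters) have no atypical intersection with special subvarieties. -/
theorem result (K : Subfield ℂ) [Countable K] (κ : Type) [Finite κ] (N n m M T : ℕ)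
    (G : κ → MvPolynomial (Fin (N + 1)) (Polynomial K)) (hG : ∀ k, ∃ e, (G k).IsHomogeneous e)
    (A B : Fin n → MvPolynomial (Fin (N + 1)) (Polynomial K)) (δ : Fin n → ℕ)
    (hA : ∀ i, (A i).IsHomogeneous (δ i)) (hB : ∀ i, (B i).IsHomogeneous (δ i))
    (R : Fin n → Polynomial (Polynomial K)) (hR : ∀ i, (R i).Monic)
    (hT : ∀ i u w, ((R i).coeff u).coeff w ≠ 0 → u ≤ T ∧ w ≤ T)
    (c : Fin n → Polynomial K) (α : Fin M → ℚ)
    (hind : IndependentExponents T fun l i => (c i).rootMultiplicity ((α l : ℚ) : K))
    (hpos : ∀ l, InGeneralPosition ((α l : ℚ) : ℂ) m G A B) (Γ : Finset ℂ)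
    (hΓ : ∀ γ ∈ Γ, γ ∈ K) :
    (Function.Injective α → ∀ d : ℕ,
      (n.choose 2 + 1 + 2 * d ≤ M → {t : ℂ | DegreeAtMost d t ∧ ¬ NoAtypical
        (algebraMap (Algebra.adjoin ℤ (Γ : Set ℂ)) ℂ) K m (scaledImage t G A B R c)}.Finite) ∧
      (m = 1 → 4 + 2 * d ≤ M → {t : ℂ | DegreeAtMost d t ∧ ∃ (r : ℕ)
        (Z : SpecialVariety (algebraMap (Algebra.adjoin ℤ (Γ : Set ℂ)) ℂ) n r),
        r + 2 ≤ n ∧ (scaledImage t G A B R c ∩ Z.locus).Nonempty}.Finite)) ∧
    ((∀ l, α l ≠ 0) → (∀ l l', l ≠ l' → |α l| ≠ |α l'|) →
      (n.choose 2 + 3 ≤ M → {t : ℂ | IsRadical t ∧ ¬ NoAtypical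
        (algebraMap (Algebra.adjoin ℤ (Γ : Set ℂ)) ℂ) K m (scaledImage t G A B R c)}.Finite) ∧
      (m = 1 → 6 ≤ M → {t : ℂ | IsRadical t ∧ ∃ (r : ℕ)
        (Z : SpecialVariety (algebraMap (Algebra.adjoin ℤ (Γ : Set ℂ)) ℂ) n r),
        r + 2 ≤ n ∧ (scaledImage t G A B R c ∩ Z.locus).Nonempty}.Finite)) ∧
    ((∀ l, α l ≠ 0 ∧ |α l| ≠ 1) →
      (n.choose 2 + 1 ≤ M → {t : ℂ | IsRootOfUnity t ∧ ¬ NoAtypical
        (algebraMap (Algebra.adjoin ℤ (Γ : Set ℂ)) ℂ) K m (scaledImage t G A B R c)}.Finite) ∧
      (m = 1 → 4 ≤ M → {t : ℂ | IsRootOfUnity t ∧ ∃ (r : ℕ)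
        (Z : SpecialVariety (algebraMap (Algebra.adjoin ℤ (Γ : Set ℂ)) ℂ) n r),
        r + 2 ≤ n ∧ (scaledImage t G A B R c ∩ Z.locus).Nonempty}.Finite)) := by
  have hrad : ∀ t ∈ {t : ℂ | IsRadical t}, IsAlgebraic ℤ t := fun t ht =>
    Pool.Agent.Y152.RP.alg_of_rad ht
  have hun : ∀ t ∈ {t : ℂ | IsRootOfUnity t}, IsAlgebraic ℤ t := by
    rintro t ⟨N, hN, ht⟩
    exact Pool.Agent.Y152.RP.alg_of_rad ⟨N, hN, 1, by rw [ht, Rat.cast_one]⟩
  have hdeg : ∀ d, ∀ t ∈ {t : ℂ | DegreeAtMost d t}, IsAlgebraic ℤ t := by
    rintro d t ⟨F, hF0, -, hFt⟩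
    exact ⟨F, hF0, hFt⟩
  refine ⟨fun hinj d => ?_, fun h0 hdist => ?_, fun hne => ?_⟩
  · obtain ⟨h1, h2⟩ := Pool.Agent.Y152.RP.Fam.family K κ N n m M T G hG A B δ hA hB R hR hT c α hind
      hpos Γ hΓ _ (hdeg d)
    exact ⟨fun hM => h1 (by omega) fun D => Pool.Agent.Y152.BD.finite_badD D d (by omega) α hinj,
      fun hm hM => h2 hm (by omega) fun D =>
        Pool.Agent.Y152.BD.finite_badD D d (by omega) α hinj⟩
  · obtain ⟨h1, h2⟩ := Pool.Agent.Y152.RP.Fam.family K κ N n m M T G hG A B δ hA hB R hR hT c α hind
      hpos Γ hΓ _ hrad
    exact ⟨fun hM => h1 (by omega) fun D =>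
      Pool.Agent.Y152.RP.arithMain D _ M (by omega) α h0 hdist,
      fun hm hM => h2 hm (by omega) fun D =>
        Pool.Agent.Y152.RP.arithMain D _ M (by omega) α h0 hdist⟩
  · obtain ⟨h1, h2⟩ := Pool.Agent.Y152.RP.Fam.family K κ N n m M T G hG A B δ hA hB R hR hT c α hind
      hpos Γ hΓ _ hun
    exact ⟨fun hM => h1 hM fun D =>
      Pool.Agent.Y152.RP.unityMain hM α (fun l => (hne l).1) (fun l => (hne l).2) D,
      fun hm hM => h2 hm hM fun D =>
        Pool.Agent.Y152.RP.unityMain hM α (fun l => (hne l).1) (fun l => (hne l).2) D⟩

end Pool.Agent.Results.MP_d83ecd_ag.AlgebraicParameters
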