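import Pool.Agent.Y92.ZX.Main

/-!
# MP_d83ecd_ag: Zilber-Pink for all curves in `Y(1)^n` with cuspidal reduction at one large place

`Y(1)^n` is identified with `ℂ^n` by the elliptic modular function `jj = j = E₄³ / Δ`. A special
subvariety of `Y(1)^n` of dimension `r` is given by a `SpecialVariety`: its points are the points
`x` with `x_i = const_i` for the constant coordinates, and `x_i = j (g_i z_l)` for the coordinates of
class `l`, `z_1, …, z_r` free in the upper half plane and `g_i` a fixed integral matrix of positive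
determinant. In the definition of special subvarieties the constants are values of `j` at CM points.
We allow also all constants which are integral over the ring generated by a given set `Γ`; in the
theorem `Γ` is the set of all elements of the number field which are integral at the place `v`.

**The curves.** Let `K` be a number field and `v` a prime of `K` (a maximal ideal of its ring of
integers `𝓞 K`). A subscheme `V` of `(P¹)^n` over `𝓞 K` is given by forms `F_t` with coefficients in
`𝓞 K` in the homogeneous coordinates `(X_1, Z_1), …, (X_n, Z_n)`: the variables are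
`(i, false) = X_i` and `(i, true) = Z_i`, and `x_i = X_i / Z_i` is the `i`-th coordinate. We say that
`V` has integral reduction in general position at `v`, of degree at most `d` (`IntegralReduction v d F`)
if
* the reduction `V̄` of `V` at `v` is (geometrically) integral: in the affine charts
  `Z_1 = … = Z_n = 1` and `X_a = 1`, `Z_i = 1` for `i ≠ a` of `(P¹)^n` the ideal of `V̄` is a prime
  ideal, over all algebraically closed fields which contain `𝓞 K / v`, and the coordinates `x_i` are
  not constant on `V̄`;
* `V̄` is in general position: for `i ≠ j` some form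
  `∑_{u ≤ a, v ≤ b} g_{uv} X_i ^ u Z_i ^ (a - u) X_j ^ v Z_j ^ (b - v)` with `a, b ≤ d` is in the ideal
  generated by the `F_t`, where `g_{00}, g_{a0}, g_{0b}, g_{ab}` are not in `v`, and the reduction of
  the form is not divisible by a form `X_i - c Z_i`. So the zeros and poles of `x_i` on
  `V̄` are different from those of `x_j`, and `V̄` is a curve (for `n ≥ 2`) which is covered by the
  charts above.
The reduction may be singular, the genus of `V` and the degrees of the `F_t` are arbitrary.

**Theorem.** For all `n`, `d` and `W` there is a number `D` such that the following holds for each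
number field `K ⊂ ℂ`, each prime `v` of `K` over a prime number `p > D` which is unramified over `p`,
each `V` in `(P¹)^n` which has integral reduction in general position at `v`, of degree at most `d`, and
all `lam_1, …, lam_n` in `K` with `v (lam_i) = - w_i e`, where `1 ≤ w_i ≤ W` and `e > 0`. Let
`C ⊂ Y(1)^n` be the set of all `(lam_1 y_1, …, lam_n y_n)`, `y ∈ V ∩ ℂ^n`. Then
* there are only finitely many points of `C` on special subvarieties of `Y(1)^n` of codimension at
  least two,
* each proper special subvariety of `Y(1)^n` contains only finitely many points of `C`.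

So the Zilber-Pink conjecture holds for all curves `C` in `Y(1)^n` over number fields which have, at
one unramified place above a prime number which is large in terms of `n`, `d` and `W` only, a
reduction of this type: after rescaling by the `lam_i` the reduction is an integral curve `V̄` in
general position, and the points of `C` reduce to the cusp `(∞, …, ∞)`, with the exception of those
whose rescaled reduction is one of the finitely many zeros of the coordinates of `V̄`. No point of the
closure of `C` itself has to be a cusp, and the bound `D` is uniform in `C` and `K`. For example, for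
`d = 1` and `W = 1`: there is a number `D`, depending on `n` only, such that the curve

  `{(lam_1 (t - b_1) / (t - c_1), …, lam_n (t - b_n) / (t - c_n)) : t ∈ ℂ, t ≠ c_i}`

(`b_i`, `c_i` integers, `lam_i` rational) satisfies the Zilber-Pink conjecture if for some prime
number `p > D` the `2 n` integers `b_i`, `c_i` are pairwise incongruent modulo `p` and the valuations
at `p` of the `lam_i` are equal and negative.
-/

namespace Pool.Agent.Results.MP_d83ecd_ag.CuspidalReduction

open H294ZP UpperHalfPlane IsDedekindDomain NumberField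

/-- A special subvariety of dimension `r` of `Y(1)^n`. The constant coordinates are those with
`cls i = none`. The allowed constants are the singular moduli and the numbers which are integral
over the ring generated by `Γ`. -/
structure SpecialVariety (Γ : Set ℂ) (n r : ℕ) where
  cls : Fin n → Option (Fin r)
  surj : ∀ l : Fin r, ∃ i, cls i = some l
  mat : Fin n → Matrix (Fin 2) (Fin 2) ℤ
  det_pos : ∀ i, 0 < (mat i).det
  const : Fin n → ℂ
  allowed : ∀ i, (∃ τ : ℍ, IsCM τ ∧ const i = jj τ) ∨ IsIntegral (Algebra.adjoin ℤ Γ) (const i)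

/-- The points of a special subvariety of `Y(1)^n`. -/
def SpecialVariety.locus {Γ : Set ℂ} {n r : ℕ} (Z : SpecialVariety Γ n r) : Set (Fin n → ℂ) :=
  {x | ∃ z : Fin r → ℍ, ∀ i, (Z.cls i = none → x i = Z.const i) ∧
    ∀ l, Z.cls i = some l → ∃ w : ℍ,
      (w : ℂ) * (Z.mat i 1 0 * z l + Z.mat i 1 1) = Z.mat i 0 0 * z l + Z.mat i 0 1 ∧
      x i = jj w}

/-- The homogeneous coordinates of the point with affine coordinates `y` in the chart `c` of
`(P¹)^n`. In the chart `none` they are `X_i = y_i`, `Z_i = 1` for all `i`, in the chart `some a`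
they are `X_a = 1`, `Z_a = y_a`, and `X_i = y_i`, `Z_i = 1` for `i ≠ a`. -/
def coord {A : Type} [CommRing A] {n : ℕ} (c : Option (Fin n)) (y : Fin n → A)
    (q : Fin n × Bool) : A :=
  if c = some q.1 then (if q.2 then y q.1 else 1) else (if q.2 then 1 else y q.1)

/-- `F` is homogeneous in each pair of variables `(X_i, Z_i) = ((i, false), (i, true))`. -/
def Multihomogeneous {A : Type} [CommRing A] {n : ℕ} (F : MvPolynomial (Fin n × Bool) A) : Prop :=
  ∃ δ : Fin n → ℕ, ∀ m ∈ F.support, ∀ i, m (i, false) + m (i, true) = δ i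

/-- The form `∑ g_{uv} X_i ^ u Z_i ^ (a - u) X_j ^ v Z_j ^ (b - v)`. -/
noncomputable def pairForm {A : Type} [CommRing A] {n : ℕ} (i j : Fin n) (a b : ℕ)
    (g : ℕ → ℕ → A) : MvPolynomial (Fin n × Bool) A :=
  ∑ u ∈ Finset.range (a + 1), ∑ v ∈ Finset.range (b + 1),
    MvPolynomial.C (g u v) * MvPolynomial.X (i, false) ^ u * MvPolynomial.X (i, true) ^ (a - u) *
      MvPolynomial.X (j, false) ^ v * MvPolynomial.X (j, true) ^ (b - v)

/-- The ideal in the chart `c` of the reduction of the scheme defined by the `F_t`, where `π` is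
the reduction of the coefficients. -/
noncomputable def chartIdeal {A k : Type} [CommRing A] [Field k] {n : ℕ} {κ : Type} (π : A →+* k)
    (F : κ → MvPolynomial (Fin n × Bool) A) (c : Option (Fin n)) :
    Ideal (MvPolynomial (Fin n) k) :=
  Ideal.span (Set.range fun t =>
    MvPolynomial.eval₂ (MvPolynomial.C.comp π) (coord c MvPolynomial.X) (F t))

/-- The scheme defined by the forms `F_t` has integral reduction in general position at `v`, of
degree at most `d`. -/
structure IntegralReduction {K : Type} [Field K] [NumberField K] (v : HeightOneSpectrum (𝓞 K))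
    {n : ℕ} (d : ℕ) {κ : Type} (F : κ → MvPolynomial (Fin n × Bool) (𝓞 K)) : Prop where
  form : ∀ t, Multihomogeneous (F t)
  prime : ∀ (k : Type) [Field k] [IsAlgClosed k] (π : 𝓞 K →+* k), RingHom.ker π = v.asIdeal →
    ∀ c, (chartIdeal π F c).IsPrime
  nonconstant : ∀ (k : Type) [Field k] [IsAlgClosed k] (π : 𝓞 K →+* k),
    RingHom.ker π = v.asIdeal → ∀ (i : Fin n) (c : k),
      MvPolynomial.X i - MvPolynomial.C c ∉ chartIdeal π F none
  general : ∀ i j : Fin n, i ≠ j → ∃ (a b : ℕ) (g : ℕ → ℕ → 𝓞 K), a ≤ d ∧ b ≤ d ∧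
    g 0 0 ∉ v.asIdeal ∧ g a 0 ∉ v.asIdeal ∧ g 0 b ∉ v.asIdeal ∧ g a b ∉ v.asIdeal ∧
    (∀ (k : Type) [Field k] [IsAlgClosed k] (π : 𝓞 K →+* k), RingHom.ker π = v.asIdeal →
      ∀ c : k, ∃ v' ≤ b, ∑ u ∈ Finset.range (a + 1), π (g u v') * c ^ u ≠ 0) ∧
    pairForm i j a b g ∈ Ideal.span (Set.range F)

/-- The set `C` of all `(lam_1 y_1, …, lam_n y_n)`, `y` a zero in `ℂ^n` of all `F_t`. -/
def scaledCurve {K : Type} [Field K] [NumberField K] (σ : K →+* ℂ) {n : ℕ} {κ : Type}
    (F : κ → MvPolynomial (Fin n × Bool) (𝓞 K)) (lam : Fin n → K) : Set (Fin n → ℂ) :=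
  {x | ∃ y : Fin n → ℂ, (∀ t, MvPolynomial.eval₂ (σ.comp (algebraMap (𝓞 K) K)) (coord none y)
    (F t) = 0) ∧ ∀ i, x i = σ (lam i) * y i}

/-- The elements of `K` which are integral at `v`. -/
def integralAt {K : Type} [Field K] [NumberField K] (σ : K →+* ℂ) (v : HeightOneSpectrum (𝓞 K)) :
    Set ℂ :=
  {z | ∃ x : K, v.valuation K x ≤ 1 ∧ σ x = z}

/-- Special subvarieties in the form used in the proof. -/
def SpecialVariety.toSV {Γ : Set ℂ} {n r : ℕ} (Z : SpecialVariety Γ n r) :
    Pool.Agent.Y226.ZM.SV Γ n r where
  cls := Z.cls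
  mat := Z.mat
  det_pos := Z.det_pos
  const := Z.const
  int := fun i => by
    rcases Z.allowed i with ⟨τ, hτ, h⟩ | h
    · rw [h]
      exact (singular_modulus_integral τ hτ).tower_top
    · exact h

/-- The Zilber-Pink conjecture for all curves in `Y(1)^n` with cuspidal reduction in general
position at one large place. -/
theorem result (n d W : ℕ) : ∃ D : ℕ, ∀ (K : Type) [Field K] [NumberField K] (σ : K →+* ℂ)
    (v : HeightOneSpectrum (𝓞 K)) (p : ℕ), p.Prime → D < p → (p : 𝓞 K) ∈ v.asIdeal →
    (p : 𝓞 K) ∉ v.asIdeal ^ 2 → ∀ (κ : Type) (F : κ → MvPolynomial (Fin n × Bool) (𝓞 K)),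
    IntegralReduction v d F → ∀ (lam : Fin n → K) (e : ℕ) (w : Fin n → ℕ), 0 < e →
    (∀ i, 0 < w i ∧ w i ≤ W ∧ v.valuation K (lam i) = WithZero.exp ((w i * e : ℕ) : ℤ)) →
    {x | x ∈ scaledCurve σ F lam ∧ ∃ (r : ℕ) (Z : SpecialVariety (integralAt σ v) n r),
      r + 2 ≤ n ∧ x ∈ Z.locus}.Finite ∧
    ∀ (r : ℕ) (Z : SpecialVariety (integralAt σ v) n r), r < n →
      {x | x ∈ scaledCurve σ F lam ∧ x ∈ Z.locus}.Finite := by
  obtain ⟨D, hD⟩ := Pool.Agent.Y92.ZX.uni_all n d W
  refine ⟨D, fun K _ _ σ v p hp hDp hpv hpv2 κ F hF lam e w he hw => ?_⟩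
  obtain ⟨h1, h2⟩ := hD K σ v p hp hDp hpv hpv2 κ F
    ⟨hF.form, hF.prime, hF.nonconstant, hF.general⟩ lam e w he hw
  refine ⟨h1.subset ?_, fun r Z hr => (h2 r Z.toSV hr).subset ?_⟩
  · rintro x ⟨⟨y, hy, hx⟩, r, Z, hr, hZ⟩
    exact ⟨⟨y, hy, hx⟩, r, Z.toSV, hr, hZ⟩
  · rintro x ⟨⟨y, hy, hx⟩, hZ⟩
    exact ⟨⟨y, hy, hx⟩, hZ⟩

end Pool.Agent.Results.MP_d83ecd_ag.CuspidalReduction
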