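import Pool.Agent.Y645.UP.Core
import Pool.Agent.Y645.UP.FinP
import Pool.Agent.Y331.UP.Enc1
import Pool.Agent.Y331.UP.Pink
import Pool.Agent.Y287.UP.Enc2
import Pool.Agent.Y427.UP.Enc
import Pool.Agent.Y459.UP.Mask
import Pool.Agent.Y739.UP.Inc
import Pool.Agent.Y845.UP.TdInc
import Pool.Agent.Y484.UP.Star
import Pool.Agent.Y837.UP.Dedup
import Pool.Agent.Y564.UP.B
import Pool.Agent.Y314.UP.Noe
import Pool.Agent.Y927.UP.Sets
import Pool.Agent.Y429.UP.Tor
import Pool.Agent.Y932.UM.J1
import Pool.Agent.Y761.UM.J2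
import Pool.Agent.Y363.UM.J3
import Pool.Agent.Y484.UM.PHI
import Pool.Agent.Y657.UM.Goody
import Pool.Agent.Y339.UM.TyDim
import Pool.Agent.Y309.UM.Slope
import Pool.Agent.Y780.UM.LiftY
import Pool.Agent.Y972.UM.Ext
import Pool.Agent.Y331.UM.Trans
import Pool.Agent.Y948.UL.Coef
import Pool.Agent.Y79.UL.SelNull

/-!
# Addition and multiplication are universal for the Zilber-Pink conjecture in Y(1)^n

The Zilber-Pink conjecture (articulated form, every closed subset, every defect) for all the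
Shimura varieties Y(1)^n, over all algebraically closed subfields of the complex numbers, is
equivalent to the following statement on algebraic points. Let V be a product of finitely many
copies of the surfaces x + y = z and x y = z in Y(1)^3. Then the algebraic points of V which lie
on a special subvariety of codimension > dim V are contained in finitely many atypical
subvarieties of V. Both are equivalent to Pink's form of the conjecture for all Y(1)^n.

Parts of the proof were written by helpers 79, 287, 309, 314, 331, 339, 363, 427, 429, 459, 484,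
564, 657, 739, 761, 780, 837, 845, 927, 932, 948 and 972; it uses the library H294ZP on modular
polynomials.
-/

set_option autoImplicit false

namespace Pool.Agent.Results.MP_d83ecd_ag.TwoSurfacesUniversality

open MvPolynomial Module UpperHalfPlane ModularForm

/-! ## Special subvarieties -/

/-- The modular function `j = E₄³ / Δ` on the upper half plane. -/
noncomputable def modularJ (τ : ℍ) : ℂ := E₄ τ ^ 3 / discriminant τ

/-- `x` and `y` are the values of the modular function at `τ` and at `w = (a τ + b) / (c τ + d)`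
for an integral matrix of determinant `N`: the elliptic curves with modular invariants `x` and `y`
are linked by an isogeny of degree `N`. -/
def Isogenous (N : ℕ) (x y : ℂ) : Prop :=
  ∃ (τ w : ℍ) (a b c d : ℤ), a * d - b * c = N ∧ (w : ℂ) * (c * τ + d) = a * τ + b ∧
    x = modularJ τ ∧ y = modularJ w

/-- The singular moduli (special points of `Y(1)`): the values of the modular function at the
imaginary quadratic numbers. -/
def singularModuli : Set ℂ :=
  {x | ∃ τ : ℍ, (∃ a b c : ℤ, a ≠ 0 ∧ (a : ℂ) * (τ : ℂ) ^ 2 + b * τ + c = 0) ∧ x = modularJ τ}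

section defs

variable {k J : Type} [Field k]

/-- The ideal of the polynomials over `k` which vanish at all points of the subset `A` of
`Y(1)^J`, the affine space with coordinates indexed by `J`. -/
def vanishing (A : Set (J → k)) : Ideal (MvPolynomial J k) where
  carrier := {f | ∀ p ∈ A, eval p f = 0}
  add_mem' := by
    intro f g hf hg x hx
    rw [map_add, hf x hx, hg x hx, add_zero]
  zero_mem' := by
    intro x _
    exact map_zero _
  smul_mem' := by
    intro c f hf x hx
    rw [smul_eq_mul, map_mul, hf x hx, mul_zero]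

/-- `A` is a Zariski closed subset: the set of the common zeros of some polynomials. -/
def IsClosedSubset (A : Set (J → k)) : Prop :=
  ∃ S : Set (MvPolynomial J k), A = {p | ∀ f ∈ S, eval p f = 0}

/-- `A` is a subvariety: closed and irreducible (so not empty). -/
def IsSubvariety (A : Set (J → k)) : Prop :=
  IsClosedSubset A ∧ (vanishing A).IsPrime

/-- The dimension of `A`: the transcendence degree over `k` of its coordinate ring. -/
noncomputable def dimension (A : Set (J → k)) : ℕ :=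
  Cardinal.toNat (Algebra.trdeg k (MvPolynomial J k ⧸ vanishing A))

variable [Algebra k ℂ]

/-- The dimension of the smallest special subvariety of `Y(1)^J` which contains `A`: the number of
the classes of the coordinates which are not constant on `A` with a singular modulus as value,
where two coordinates are in the same class if they are linked on `A` by isogenies of the same
degree. -/
noncomputable def specialDimension (A : Set (J → k)) : ℕ :=
  Nat.card (Quot (fun i j : {i : J // ¬ ∃ c ∈ singularModuli, ∀ p ∈ A,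
      algebraMap k ℂ (p i) = c} =>
    ∃ N : ℕ, 0 < N ∧ ∀ p ∈ A, Isogenous N (algebraMap k ℂ (p i)) (algebraMap k ℂ (p j))))

/-- The defect of `A`: the dimension of the smallest special subvariety which contains `A` minus
the dimension of `A`. -/
noncomputable def defect (A : Set (J → k)) : ℤ :=
  (specialDimension A : ℤ) - (dimension A : ℤ)

/-- The subvarieties of `V` of defect at most `δ` are all contained in finitely many of them, so
the union of the subvarieties of `V` of defect at most `δ` is a finite union of such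
subvarieties. -/
def FinitelyManyMaximal (V : Set (J → k)) (δ : ℤ) : Prop :=
  ∃ 𝒜 : Set (Set (J → k)), 𝒜.Finite ∧
    (∀ A ∈ 𝒜, IsSubvariety A ∧ A ⊆ V ∧ defect A ≤ δ) ∧
    ∀ A, IsSubvariety A → A ⊆ V → defect A ≤ δ → ∃ A' ∈ 𝒜, A ⊆ A'

/-- The points of `Z` which lie on a special subvariety of dimension at most `d` are Zariski dense
in `Z`. -/
def DensePointsOfDefect (Z : Set (J → k)) (d : ℕ) : Prop :=
  ∀ f : MvPolynomial J k, (∀ x ∈ Z, specialDimension {x} ≤ d → eval x f = 0) →
    ∀ x ∈ Z, eval x f = 0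

end defs

/-- The field of the algebraic numbers in the complex numbers. -/
abbrev Qbar : Type := algebraicClosure ℚ ℂ

/-- The product of the surfaces `x + y = z` in `Y(1)^3`, one for every element of `I₁`, and of the
surfaces `x y = z` in `Y(1)^3`, one for every element of `I₂`, over the algebraic numbers. Its
dimension and its codimension are `2 (card I₁ + card I₂)` and `card I₁ + card I₂`. -/
def surfaceProduct (I₁ I₂ : Type) : Set ((I₁ ⊕ I₂) × Fin 3 → Qbar) :=
  {p | (∀ i, p (Sum.inl i, 0) + p (Sum.inl i, 1) = p (Sum.inl i, 2)) ∧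
    ∀ i, p (Sum.inr i, 0) * p (Sum.inr i, 1) = p (Sum.inr i, 2)}

/-! ## The comparison of the definitions -/

theorem card_quot_congr {J : Type} {P P' : J → Prop} {R R' : J → J → Prop}
    (hP : ∀ i, P i ↔ P' i) (hR : ∀ i j, R i j ↔ R' i j) :
    Nat.card (Quot (fun i j : {i : J // ¬ P i} => R i j)) =
      Nat.card (Quot (fun i j : {i : J // ¬ P' i} => R' i j)) := by
  obtain rfl : P = P' := funext fun i => propext (hP i)
  obtain rfl : R = R' := funext fun i => funext fun j => propext (hR i j)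
  rfl

/-- The equations describe the isogenies and the singular moduli. -/
def Describes {k : Type} [Field k] [Algebra k ℂ] (D : Pool.Agent.Y645.UM.Data k) : Prop :=
  (∀ N : ℕ, 0 < N → ∀ y z : k, aeval ![y, z] (D.Φ N) = 0 ↔
    Isogenous N (algebraMap k ℂ y) (algebraMap k ℂ z)) ∧
  ∀ c : ℂ, c ∈ singularModuli ↔ ∃ x ∈ D.C, algebraMap k ℂ x = c

theorem specialDimension_eq {k J : Type} [Field k] [Algebra k ℂ]
    (D : Pool.Agent.Y645.UM.Data k) (hD : Describes D) (A : Set (J → k)) :
    (specialDimension A : ℤ) = Pool.Agent.Y645.UP.spdP D A := by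
  refine congrArg (fun n : ℕ => (n : ℤ)) ?_
  refine card_quot_congr (P := fun i => ∃ c ∈ singularModuli, ∀ p ∈ A,
      algebraMap k ℂ (p i) = c) (P' := fun i => ∃ c ∈ D.C, ∀ p ∈ A, p i = c)
    (R := fun i j => ∃ N : ℕ, 0 < N ∧ ∀ p ∈ A, Isogenous N (algebraMap k ℂ (p i))
      (algebraMap k ℂ (p j)))
    (R' := fun i j => ∃ N : ℕ, 0 < N ∧ ∀ p ∈ A, aeval ![p i, p j] (D.Φ N) = 0) ?_ ?_
  · intro i
    constructor
    · rintro ⟨c, hc, h⟩
      obtain ⟨x, hx, rfl⟩ := (hD.2 c).1 hc
      exact ⟨x, hx, fun p hp => (algebraMap k ℂ).injective (h p hp)⟩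
    · rintro ⟨x, hx, h⟩
      exact ⟨algebraMap k ℂ x, (hD.2 _).2 ⟨x, hx, rfl⟩, fun p hp => by rw [h p hp]⟩
  · intro i j
    constructor
    · rintro ⟨N, hN, h⟩
      exact ⟨N, hN, fun p hp => (hD.1 N hN _ _).2 (h p hp)⟩
    · rintro ⟨N, hN, h⟩
      exact ⟨N, hN, fun p hp => (hD.1 N hN _ _).1 (h p hp)⟩

theorem defect_eq {k J : Type} [Field k] [Algebra k ℂ]
    (D : Pool.Agent.Y645.UM.Data k) (hD : Describes D) (A : Set (J → k)) :
    defect A = Pool.Agent.Y645.UP.spdP D A - (Pool.Agent.Y645.UP.dimP A : ℤ) := by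
  rw [defect, specialDimension_eq D hD A]
  rfl

theorem finitelyManyMaximal_iff {k J : Type} [Field k] [Algebra k ℂ]
    (D : Pool.Agent.Y645.UM.Data k) (hD : Describes D) (V : Set (J → k)) (δ : ℤ) :
    FinitelyManyMaximal V δ ↔ Pool.Agent.Y645.UP.FinDefP D V δ := by
  have h1 : ∀ A : Set (J → k), defect A =
      Pool.Agent.Y645.UP.spdP D A - (Pool.Agent.Y645.UP.dimP A : ℤ) := defect_eq D hD
  constructor
  · rintro ⟨𝒜, h2, h3, h4⟩
    refine ⟨𝒜, h2, fun A hA => ⟨(h3 A hA).1, (h3 A hA).2.1, ?_⟩, fun A hA hAV hd => ?_⟩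
    · rw [← h1]
      exact (h3 A hA).2.2
    · refine h4 A hA hAV ?_
      rw [h1]
      exact hd
  · rintro ⟨𝒜, h2, h3, h4⟩
    refine ⟨𝒜, h2, fun A hA => ⟨(h3 A hA).1, (h3 A hA).2.1, ?_⟩, fun A hA hAV hd => ?_⟩
    · rw [h1]
      exact (h3 A hA).2.2
    · refine h4 A hA hAV ?_
      rw [← h1]
      exact hd

/-- the equations over a bigger field describe the same isogenies -/
theorem describes_map (D : Pool.Agent.Y645.UM.Data Qbar)
    (h1 : ∀ N : ℕ, 0 < N → ∀ x y : ℂ, aeval ![x, y] (D.Φ N) = 0 ↔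
      Pool.Agent.Y645.UM.IsogN N x y)
    (h2 : ∀ x : ℂ, Pool.Agent.Y645.UM.SpecAt D x ↔ x ∈ Pool.Agent.Y645.UM.CMv)
    (k : Type) [Field k] [Algebra k ℂ] [Algebra Qbar k] [IsScalarTower Qbar k ℂ] :
    Describes (D.map k) := by
  refine ⟨fun N hN y z => ?_, fun c => ?_⟩
  · have h3 : aeval ![y, z] ((D.map k).Φ N) = aeval ![y, z] (D.Φ N) :=
      MvPolynomial.aeval_map_algebraMap k ![y, z] (D.Φ N)
    have h4 : aeval ![algebraMap k ℂ y, algebraMap k ℂ z] (D.Φ N) =
        algebraMap k ℂ (aeval ![y, z] (D.Φ N)) := by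
      have h5 : (![algebraMap k ℂ y, algebraMap k ℂ z] : Fin 2 → ℂ) =
          algebraMap k ℂ ∘ ![y, z] := by
        funext i
        fin_cases i <;> rfl
      rw [h5]
      exact MvPolynomial.aeval_algebraMap_apply ℂ ![y, z] (D.Φ N)
    rw [h3]
    refine Iff.trans ?_ (h1 N hN (algebraMap k ℂ y) (algebraMap k ℂ z))
    rw [h4]
    exact (map_eq_zero_iff _ (algebraMap k ℂ).injective).symm
  · refine Iff.trans (h2 c).symm ?_
    constructor
    · rintro ⟨x, hx, h3⟩
      exact ⟨algebraMap Qbar k x, ⟨x, hx, rfl⟩, by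
        rw [h3, ← IsScalarTower.algebraMap_apply]⟩
    · rintro ⟨_, ⟨x, hx, rfl⟩, h3⟩
      exact ⟨x, hx, by rw [← h3, ← IsScalarTower.algebraMap_apply]⟩

theorem describes_self (D : Pool.Agent.Y645.UM.Data Qbar)
    (h1 : ∀ N : ℕ, 0 < N → ∀ x y : ℂ, aeval ![x, y] (D.Φ N) = 0 ↔
      Pool.Agent.Y645.UM.IsogN N x y)
    (h2 : ∀ x : ℂ, Pool.Agent.Y645.UM.SpecAt D x ↔ x ∈ Pool.Agent.Y645.UM.CMv) :
    Describes D := by
  refine ⟨fun N hN y z => ?_, fun c => ?_⟩
  · have h4 : aeval ![algebraMap Qbar ℂ y, algebraMap Qbar ℂ z] (D.Φ N) =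
        algebraMap Qbar ℂ (aeval ![y, z] (D.Φ N)) := by
      have h5 : (![algebraMap Qbar ℂ y, algebraMap Qbar ℂ z] : Fin 2 → ℂ) =
          algebraMap Qbar ℂ ∘ ![y, z] := by
        funext i
        fin_cases i <;> rfl
      rw [h5]
      exact MvPolynomial.aeval_algebraMap_apply ℂ ![y, z] (D.Φ N)
    refine Iff.trans ?_ (h1 N hN (algebraMap Qbar ℂ y) (algebraMap Qbar ℂ z))
    rw [h4]
    exact (map_eq_zero_iff _ (algebraMap Qbar ℂ).injective).symm
  · refine Iff.trans (h2 c).symm ?_
    constructor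
    · rintro ⟨x, hx, h3⟩
      exact ⟨x, hx, h3.symm⟩
    · rintro ⟨x, hx, h3⟩
      exact ⟨x, hx, h3.symm⟩

/-! ## The base fields -/

theorem isAlgClosed_Qbar : IsAlgClosed Qbar :=
  (algebraicClosure.isAlgClosure ℚ ℂ).isAlgClosed

/-- The algebraic numbers are algebraic over the rational numbers. -/
theorem isAlgebraic_rat : @Algebra.IsAlgebraic ℚ Qbar _ _ DivisionRing.toRatAlgebra := by
  have h : Algebra.IsAlgebraic ℚ (algebraicClosure ℚ ℂ) := algebraicClosure.isAlgebraic ℚ ℂ
  convert! h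

/-- An algebraically closed subfield of the complex numbers contains the algebraic numbers. -/
theorem exists_algebra (k : Type) [Field k] [IsAlgClosed k] [Algebra k ℂ] :
    ∃ φ : Qbar →+* k, ∀ z : Qbar, algebraMap k ℂ (φ z) = algebraMap Qbar ℂ z := by
  have hk : CharZero k := RingHom.charZero (algebraMap k ℂ)
  have hmem : ∀ z : Qbar, algebraMap Qbar ℂ z ∈ (algebraMap k ℂ).range := by
    intro z
    have h1 : IsAlgebraic ℚ (algebraMap Qbar ℂ z) := by
      have h2 : (z : ℂ) ∈ algebraicClosure ℚ ℂ := z.2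
      exact mem_algebraicClosure_iff.1 h2
    have h3 : IsAlgebraic k (algebraMap Qbar ℂ z) := h1.tower_top k
    have h4 : IsIntegral k (algebraMap Qbar ℂ z) := h3.isIntegral
    refine minpoly.mem_range_of_degree_eq_one k _ ?_
    exact IsAlgClosed.degree_eq_one_of_irreducible k (minpoly.irreducible h4)
  let e : k ≃+* (algebraMap k ℂ).range :=
    RingEquiv.ofBijective (algebraMap k ℂ).rangeRestrict
      ⟨fun x y h => (algebraMap k ℂ).injective (congrArg Subtype.val h),
        (algebraMap k ℂ).rangeRestrict_surjective⟩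
  let g : Qbar →+* (algebraMap k ℂ).range := (algebraMap Qbar ℂ).codRestrict _ hmem
  refine ⟨(e.symm : (algebraMap k ℂ).range →+* k).comp g, fun z => ?_⟩
  have h5 : e (e.symm (g z)) = g z := e.apply_symm_apply (g z)
  exact congrArg Subtype.val h5

/-! ## The theorem -/

/-- The finiteness for the points of the products of the two surfaces implies the finiteness for
all closed subsets. -/
theorem main_direction (D : Pool.Agent.Y645.UM.Data Qbar)
    (hgood : Pool.Agent.Y645.UM.Good D) (h : Pool.Agent.Y645.UP.LPp Qbar D) :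
    Pool.Agent.Y645.UP.PPp Qbar D := by
  have hA := isAlgClosed_Qbar
  have hTOR := Pool.Agent.Y429.UP.t_TORp Pool.Agent.Y972.UM.t_EXTm
  have hH := Pool.Agent.Y645.UP.HHp_of_LPp Pool.Agent.Y927.UP.t_DIMp
    Pool.Agent.Y927.UP.t_ISOp Pool.Agent.Y314.UP.t_GENp hTOR Qbar D hgood h
  have hTY := Pool.Agent.Y339.UM.TyDim.t_TYDIM
  have hCL := Pool.Agent.Y339.UM.TyDim.t_CLSPC
  have hLY := Pool.Agent.Y780.UM.t_LIFTY Pool.Agent.Y309.UM.t_SLOPE hCL
  have hST := Pool.Agent.Y484.UP.t_STARp hTY hCL hLY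
  have hENC := Pool.Agent.Y427.UP.t_ENC (Pool.Agent.Y287.UP.t_ENC2 Pool.Agent.Y331.UP.t_ENC1
    Pool.Agent.Y948.UL.t_INT)
  have hQ := isAlgebraic_rat
  have hC := Pool.Agent.Y645.UP.t_Cp hENC Pool.Agent.Y739.UP.t_INC Pool.Agent.Y845.UP.t_TDINC
    hST hTY Pool.Agent.Y79.UL.t_SEL Qbar D hgood hH
  exact Pool.Agent.Y837.UP.t_DEDUPp Qbar D hgood
    (Pool.Agent.Y459.UP.t_MASK Qbar D hgood hC)

/-- The articulated form for all closed subsets is equivalent to its case for the algebraic points
of the products of the graphs. -/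
theorem main_iff :
    (∀ (k : Type) [Field k] [IsAlgClosed k] [Algebra k ℂ] (J : Type) [Fintype J]
      (V : Set (J → k)) (δ : ℤ), IsClosedSubset V → FinitelyManyMaximal V δ) ↔
    (∀ (I₁ I₂ : Type) [Fintype I₁] [Fintype I₂],
      ∃ 𝒜 : Set (Set ((I₁ ⊕ I₂) × Fin 3 → Qbar)), 𝒜.Finite ∧
      (∀ A ∈ 𝒜, IsSubvariety A ∧ A ⊆ surfaceProduct I₁ I₂ ∧
        defect A < (Fintype.card I₁ : ℤ) + (Fintype.card I₂ : ℤ)) ∧
      ∀ p ∈ surfaceProduct I₁ I₂,
        specialDimension {p} < Fintype.card I₁ + Fintype.card I₂ → ∃ A ∈ 𝒜, p ∈ A) := by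
  obtain ⟨D, hgood, hD1, hD2⟩ := Pool.Agent.Y657.UM.t_GOODY Pool.Agent.Y932.UM.J1.t_J1
    Pool.Agent.Y761.UM.J2.t_J2 Pool.Agent.Y363.UM.t_J3
    (Pool.Agent.Y484.UM.t_PHI Pool.Agent.Y932.UM.J1.t_J1) Pool.Agent.Y331.UM.t_TRANS
  have hdes : Describes D := describes_self D hD1 hD2
  have hA := isAlgClosed_Qbar
  constructor
  · intro h
    have h1 : Pool.Agent.Y645.UP.LPp Qbar D := by
      refine Pool.Agent.Y645.UP.LPp_of_FinDefP D (fun I₁ I₂ _ _ => ?_)
      exact (finitelyManyMaximal_iff D hdes _ _).1 (h Qbar ((I₁ ⊕ I₂) × Fin 3)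
        (Pool.Agent.Y645.UP.gateP Qbar I₁ I₂) _
        (Pool.Agent.Y645.UP.isClosedP_gate Qbar I₁ I₂))
    intro I₁ I₂ _ _
    obtain ⟨𝒜, h2, h3, h4⟩ := h1 I₁ I₂
    refine ⟨𝒜, h2, fun A hA => ⟨(h3 A hA).1, (h3 A hA).2.1, ?_⟩, fun p hp hr => h4 p hp ?_⟩
    · rw [defect_eq D hdes]
      exact (h3 A hA).2.2
    · rw [← specialDimension_eq D hdes]
      exact_mod_cast hr
  · intro h k _ _ _ J _ V δ hV
    have h1 : Pool.Agent.Y645.UP.LPp Qbar D := by
      intro I₁ I₂ _ _
      obtain ⟨𝒜, h2, h3, h4⟩ := h I₁ I₂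
      refine ⟨𝒜, h2, fun A hA => ⟨(h3 A hA).1, (h3 A hA).2.1, ?_⟩, fun p hp hr => h4 p hp ?_⟩
      · rw [← defect_eq D hdes]
        exact (h3 A hA).2.2
      · rw [← specialDimension_eq D hdes] at hr
        exact_mod_cast hr
    have hP := main_direction D hgood h1
    obtain ⟨φ, hφ⟩ := exists_algebra k
    let _ : Algebra Qbar k := φ.toAlgebra
    have htow : IsScalarTower Qbar k ℂ := IsScalarTower.of_algebraMap_eq fun z => (hφ z).symm
    have hPk := Pool.Agent.Y564.UP.t_Bp Pool.Agent.Y739.UP.t_INC Pool.Agent.Y948.UL.t_COEF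
      Qbar k D hgood hP
    have hAA := Pool.Agent.Y314.UP.t_Ap Pool.Agent.Y314.UP.t_GENp k (D.map k) hPk
    have hfin := Pool.Agent.Y645.UP.FinDefP_of_AAp
      Pool.Agent.Y927.UP.t_DIMp Pool.Agent.Y927.UP.t_ISOp Pool.Agent.Y314.UP.t_GENp
      Pool.Agent.Y927.UP.t_NULLp k (D.map k) hAA J V δ hV
    exact (finitelyManyMaximal_iff (D.map k) (describes_map D hD1 hD2 k) V δ).2 hfin

/-- Pink's form is equivalent to the articulated form. -/
theorem pink_iff (k : Type) [Field k] [IsAlgClosed k] [Algebra k ℂ] :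
    (∀ (J : Type) [Fintype J] (V : Set (J → k)) (δ : ℤ), IsClosedSubset V →
      FinitelyManyMaximal V δ) ↔
    (∀ (J : Type) [Fintype J] (Z : Set (J → k)) (d : ℕ), IsSubvariety Z →
      DensePointsOfDefect Z d → defect Z ≤ d) := by
  obtain ⟨D, hgood, hD1, hD2⟩ := Pool.Agent.Y657.UM.t_GOODY Pool.Agent.Y932.UM.J1.t_J1
    Pool.Agent.Y761.UM.J2.t_J2 Pool.Agent.Y363.UM.t_J3
    (Pool.Agent.Y484.UM.t_PHI Pool.Agent.Y932.UM.J1.t_J1) Pool.Agent.Y331.UM.t_TRANS
  have hk : CharZero k := RingHom.charZero (algebraMap k ℂ)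
  obtain ⟨φ, hφ⟩ := exists_algebra k
  let _ : Algebra Qbar k := φ.toAlgebra
  have htow : IsScalarTower Qbar k ℂ := IsScalarTower.of_algebraMap_eq fun z => (hφ z).symm
  have hdes : Describes (D.map k) := describes_map D hD1 hD2 k
  have hgk : Pool.Agent.Y645.UM.Good (D.map k) := Pool.Agent.Y331.UM.t_MAP Qbar k D hgood
  have hP := Pool.Agent.Y331.UP.t_PINK (Pool.Agent.Y429.UP.t_TORp Pool.Agent.Y972.UM.t_EXTm)
    Pool.Agent.Y314.UP.t_GENp Pool.Agent.Y927.UP.t_DIMp Pool.Agent.Y927.UP.t_ISOp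
    Pool.Agent.Y845.UP.t_TDINC k (D.map k) hgk
  have h1 : (∀ (J : Type) [Fintype J] (V : Set (J → k)) (δ : ℤ), IsClosedSubset V →
      FinitelyManyMaximal V δ) ↔ (∀ (J : Type) [Fintype J] (V : Set (J → k)) (δ : ℤ),
      Pool.Agent.Y645.UP.IsClosedP V → Pool.Agent.Y645.UP.FinDefP (D.map k) V δ) :=
    ⟨fun h J _ V δ hV => (finitelyManyMaximal_iff (D.map k) hdes V δ).1 (h J V δ hV),
      fun h J _ V δ hV => (finitelyManyMaximal_iff (D.map k) hdes V δ).2 (h J V δ hV)⟩
  have h2 : (∀ (J : Type) [Fintype J] (Z : Set (J → k)) (d : ℕ), IsSubvariety Z →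
      DensePointsOfDefect Z d → defect Z ≤ d) ↔ Pool.Agent.Y645.UP.PinkP k (D.map k) := by
    constructor
    · intro h J _ Z d hZ hd
      rw [← defect_eq (D.map k) hdes]
      refine h J Z d hZ fun f hf => hd f fun x hx hxd => hf x hx ?_
      rw [← specialDimension_eq (D.map k) hdes] at hxd
      exact_mod_cast hxd
    · intro h J _ Z d hZ hd
      rw [defect_eq (D.map k) hdes]
      refine h J Z d hZ fun f hf => hd f fun x hx hxd => hf x hx ?_
      rw [← specialDimension_eq (D.map k) hdes]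
      exact_mod_cast hxd
  exact h1.trans (hP.symm.trans h2.symm)

/-- The following statements are equivalent.

* The Zilber-Pink conjecture in articulated form for the Shimura varieties `Y(1)^J`: all finite
  sets `J`, all closed subsets, all defects, all algebraically closed subfields of the complex
  numbers.
* Pink's form: if the points of a subvariety `Z` of `Y(1)^J` which lie on special subvarieties of
  dimension at most `d` are Zariski dense in `Z`, then the defect of `Z` is at most `d`.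
* For all finite sets `I₁` and `I₂` the algebraic points of the product `surfaceProduct I₁ I₂` of
  graphs of the addition and of the multiplication which lie on a special subvariety of
  codimension greater than the dimension of the product are contained in finitely many atypical
  subvarieties of the product. -/
theorem result :
    List.TFAE [
      ∀ (k : Type) [Field k] [IsAlgClosed k] [Algebra k ℂ] (J : Type) [Fintype J]
        (V : Set (J → k)) (δ : ℤ), IsClosedSubset V → FinitelyManyMaximal V δ,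
      ∀ (k : Type) [Field k] [IsAlgClosed k] [Algebra k ℂ] (J : Type) [Fintype J]
        (Z : Set (J → k)) (d : ℕ), IsSubvariety Z → DensePointsOfDefect Z d → defect Z ≤ d,
      ∀ (I₁ I₂ : Type) [Fintype I₁] [Fintype I₂],
        ∃ 𝒜 : Set (Set ((I₁ ⊕ I₂) × Fin 3 → Qbar)), 𝒜.Finite ∧
        (∀ A ∈ 𝒜, IsSubvariety A ∧ A ⊆ surfaceProduct I₁ I₂ ∧
          defect A < (Fintype.card I₁ : ℤ) + (Fintype.card I₂ : ℤ)) ∧
        ∀ p ∈ surfaceProduct I₁ I₂,
          specialDimension {p} < Fintype.card I₁ + Fintype.card I₂ → ∃ A ∈ 𝒜, p ∈ A] := by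
  tfae_have 1 ↔ 3 := main_iff
  tfae_have 1 ↔ 2 :=
    ⟨fun h k _ _ _ => (pink_iff k).1 (fun J _ V δ hV => h k J V δ hV),
      fun h k _ _ _ => (pink_iff k).2 (fun J _ Z d hZ hd => h k J Z d hZ hd)⟩
  tfae_finish

end Pool.Agent.Results.MP_d83ecd_ag.TwoSurfacesUniversality
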